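import Pool.Agent.H705.RO.Stm

/-! # Part LOW (helper404) -/

set_option autoImplicit false

namespace Pool.Agent.H404.RO

open MeasureTheory ProbabilityTheory Filter Topology Finset
open Pool.Agent.H705.RO

theorem log_tend : Tendsto (fun N : ℕ => Real.log (N : ℝ)) atTop atTop :=
  Real.tendsto_log_atTop.comp tendsto_natCast_atTop_atTop

theorem one_lt_of_log {N : ℕ} (h : 1 < Real.log (N : ℝ)) : (1 : ℝ) ≤ N := by
  have h0 : N ≠ 0 := by
    rintro rfl
    rw [Nat.cast_zero, Real.log_zero] at h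
    linarith
  exact_mod_cast Nat.one_le_iff_ne_zero.2 h0

/-- the main term -/
theorem ev_main {κ b b'' c D : ℝ} (hκ : 0 < κ) (hb : 0 ≤ b) (hc0 : 0 < c) (hcb : b'' < c * b)
    (hD : 1 ≤ D) : ∀ᶠ N : ℕ in atTop, ∀ t : ℝ, (N : ℝ) ≤ t → t ≤ Real.exp (D * N) →
      b'' * Real.log (Real.log t) ^ κ ≤ c * (b * Real.log N ^ κ) - 2 := by
  rcases lt_or_ge b'' 0 with h | h
  · have h1 : Tendsto (fun N : ℕ => b'' * Real.log (Real.log (N : ℝ)) ^ κ) atTop atBot :=
      ((tendsto_rpow_atTop hκ).comp (Real.tendsto_log_atTop.comp log_tend)).const_mul_atTop_of_neg h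
    filter_upwards [h1.eventually_le_atBot (-2), log_tend.eventually_gt_atTop 1] with N hN hN1 t ht1 ht2
    have hNp : (1 : ℝ) ≤ N := one_lt_of_log hN1
    have h2 : Real.log (N : ℝ) ≤ Real.log t := Real.log_le_log (by linarith) ht1
    have h3 : Real.log (Real.log (N : ℝ)) ≤ Real.log (Real.log t) :=
      Real.log_le_log (by linarith) h2
    have h4 : 0 ≤ Real.log (Real.log (N : ℝ)) := Real.log_nonneg hN1.le
    have h5 : Real.log (Real.log (N : ℝ)) ^ κ ≤ Real.log (Real.log t) ^ κ :=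
      Real.rpow_le_rpow h4 h3 hκ.le
    have h6 := mul_le_mul_of_nonpos_left h5 h.le
    have h7 : 0 ≤ c * (b * Real.log (N : ℝ) ^ κ) :=
      mul_nonneg hc0.le (mul_nonneg hb (Real.rpow_nonneg (by linarith) _))
    linarith
  · have hL : 0 ≤ Real.log D := Real.log_nonneg hD
    have h1 : Tendsto (fun y : ℝ => b'' * (1 + Real.log D / y) ^ κ + 2 / y ^ κ) atTop
        (𝓝 (b'' * (1 + 0) ^ κ + 0)) := by
      have h2 : Tendsto (fun y : ℝ => Real.log D / y) atTop (𝓝 0) :=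
        tendsto_const_nhds.div_atTop tendsto_id
      have h3 : Tendsto (fun y : ℝ => (1 + Real.log D / y) ^ κ) atTop (𝓝 ((1 + 0) ^ κ)) :=
        (tendsto_const_nhds.add h2).rpow_const (Or.inr hκ.le)
      exact (h3.const_mul b'').add (tendsto_const_nhds.div_atTop (tendsto_rpow_atTop hκ))
    rw [add_zero, add_zero, Real.one_rpow, mul_one] at h1
    filter_upwards [log_tend.eventually (h1.eventually_lt_const hcb),
      log_tend.eventually_gt_atTop 1] with N hN hN1 t ht1 ht2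
    have hNp : (1 : ℝ) ≤ N := one_lt_of_log hN1
    have hy : 0 < Real.log (N : ℝ) := by linarith
    have h2 : Real.log (N : ℝ) ≤ Real.log t := Real.log_le_log (by linarith) ht1
    have h3 : Real.log t ≤ D * N := (Real.log_le_iff_le_exp (by linarith)).2 ht2
    have h4 : Real.log (Real.log t) ≤ Real.log (N : ℝ) + Real.log D := by
      have h5 : Real.log (Real.log t) ≤ Real.log (D * N) := Real.log_le_log (by linarith) h3
      rw [Real.log_mul (by linarith) (by linarith)] at h5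
      linarith
    have h5 : 0 ≤ Real.log (Real.log t) := Real.log_nonneg (by linarith)
    have h6 : Real.log (Real.log t) ^ κ ≤ (Real.log (N : ℝ) + Real.log D) ^ κ :=
      Real.rpow_le_rpow h5 h4 hκ.le
    have h7 : (Real.log (N : ℝ) + Real.log D) ^ κ =
        (1 + Real.log D / Real.log (N : ℝ)) ^ κ * Real.log (N : ℝ) ^ κ := by
      rw [← Real.mul_rpow (by positivity) hy.le]
      congr 1
      field_simp
    have h8 : 0 < Real.log (N : ℝ) ^ κ := Real.rpow_pos_of_pos hy _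
    have h9 := mul_lt_mul_of_pos_right hN h8
    have h10 : (b'' * (1 + Real.log D / Real.log (N : ℝ)) ^ κ + 2 / Real.log (N : ℝ) ^ κ) *
        Real.log (N : ℝ) ^ κ = b'' * ((1 + Real.log D / Real.log (N : ℝ)) ^ κ *
          Real.log (N : ℝ) ^ κ) + 2 := by
      field_simp
    rw [h10, ← h7] at h9
    have h11 := mul_le_mul_of_nonneg_left h6 h
    have h12 : c * b * Real.log (N : ℝ) ^ κ = c * (b * Real.log (N : ℝ) ^ κ) := mul_assoc _ _ _
    linarith

/-- the tail -/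
theorem ev_tail {W : ℕ → ℝ → ℝ} {S : ℝ → ℝ} {K D : ℝ} (hD : 1 ≤ D)
    (hK : ∀ J k : ℕ, ∀ t : ℝ, 0 ≤ t → t ≤ 2 ^ k → ∀ M : ℕ, 2 ^ J ≤ M →
      |S t - part W M t| ≤ K * (2 : ℝ) ^ (-(pe 0 * J / 2)) * Real.sqrt ((J : ℝ) + k + 1)) :
    ∀ᶠ N : ℕ in atTop, ∀ t : ℝ, 0 ≤ t → t ≤ Real.exp (D * N) → |S t - part W (N ^ 4) t| ≤ 1 := by
  filter_upwards [eventually_ge_atTop 1,
    tendsto_natCast_atTop_atTop.eventually_ge_atTop (32 * D * (|K| + 1) ^ 2)] with N h1 h2 t ht0 ht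
  have hN1 : (1 : ℝ) ≤ N := by exact_mod_cast h1
  have hN0 : (0 : ℝ) < N := by linarith
  have hl2 : (0 : ℝ) < Real.log 2 := Real.log_pos (by norm_num)
  have hl2' : (1 / 2 : ℝ) ≤ Real.log 2 := by
    have := Real.log_two_gt_d9
    linarith
  obtain ⟨J, hJ⟩ : ∃ J : ℕ, J = Nat.log 2 (N ^ 4) := ⟨_, rfl⟩
  obtain ⟨k, hk⟩ : ∃ k : ℕ, k = ⌈D * N / Real.log 2⌉₊ := ⟨_, rfl⟩
  have hJ1 : 2 ^ J ≤ N ^ 4 := by
    rw [hJ]
    exact Nat.pow_log_le_self 2 (pow_ne_zero 4 (by omega))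
  have hJ2 : N ^ 4 < 2 ^ (J + 1) := by
    rw [hJ]
    exact Nat.lt_pow_succ_log_self (by norm_num) _
  have hJ3 : J ≤ 4 * N := by
    have h3 : 2 ^ J ≤ 2 ^ (4 * N) := by
      refine hJ1.trans ?_
      rw [Nat.mul_comm, pow_mul]
      exact Nat.pow_le_pow_left Nat.lt_two_pow_self.le 4
    exact (Nat.pow_le_pow_iff_right (by norm_num)).1 h3
  have hDN : 0 ≤ D * N := by positivity
  have hk1 : t ≤ 2 ^ k := by
    have h3 : D * N ≤ k * Real.log 2 := by
      rw [← div_le_iff₀ hl2, hk]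
      exact Nat.le_ceil _
    have h4 : Real.exp (k * Real.log 2) = 2 ^ k := by
      rw [Real.exp_nat_mul, Real.exp_log (by norm_num)]
    rw [← h4]
    exact ht.trans (Real.exp_le_exp.2 h3)
  have hk2 : (k : ℝ) ≤ 2 * (D * N) + 1 := by
    have h3 : (k : ℝ) < D * N / Real.log 2 + 1 := by
      rw [hk]
      exact Nat.ceil_lt_add_one (div_nonneg hDN hl2.le)
    have h4 : D * N / Real.log 2 ≤ 2 * (D * N) := by
      rw [div_le_iff₀ hl2]
      nlinarith
    linarith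
  have hpe : pe 0 = 1 / 2 := by
    unfold pe
    norm_num
  have hx : (2 : ℝ) ^ (-(pe 0 * J / 2)) ≤ 2 / N := by
    rw [hpe]
    have hx0 : (0 : ℝ) < (2 : ℝ) ^ (-(1 / 2 * (J : ℝ) / 2)) := Real.rpow_pos_of_pos (by norm_num) _
    have hx4 : ((2 : ℝ) ^ (-(1 / 2 * (J : ℝ) / 2))) ^ 4 * 2 ^ J = 1 := by
      rw [← Real.rpow_natCast ((2 : ℝ) ^ (-(1 / 2 * (J : ℝ) / 2))) 4, ← Real.rpow_mul (by norm_num),
        ← Real.rpow_natCast 2 J, ← Real.rpow_add (by norm_num)]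
      have h3 : -(1 / 2 * (J : ℝ) / 2) * ((4 : ℕ) : ℝ) + (J : ℝ) = 0 := by
        push_cast
        ring
      rw [h3, Real.rpow_zero]
    have hJ2' : (N : ℝ) ^ 4 ≤ 2 ^ (J + 1) := by exact_mod_cast hJ2.le
    rw [le_div_iff₀ hN0]
    refine le_of_pow_le_pow_left₀ (n := 4) (by norm_num) (by norm_num) ?_
    rw [mul_pow]
    have h3 := mul_le_mul_of_nonneg_left hJ2' (pow_pos hx0 4).le
    rw [pow_succ (2 : ℝ) J, ← mul_assoc, hx4] at h3
    linarith
  have hs : Real.sqrt ((J : ℝ) + k + 1) ≤ N / (2 * (|K| + 1)) := by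
    have hK0 : 0 ≤ |K| := abs_nonneg K
    rw [Real.sqrt_le_iff]
    refine ⟨by positivity, ?_⟩
    have h3 : (J : ℝ) ≤ 4 * N := by exact_mod_cast hJ3
    have h4 : (J : ℝ) + k + 1 ≤ 8 * D * N := by nlinarith
    refine h4.trans ?_
    rw [div_pow, le_div_iff₀ (by positivity)]
    have h5 := mul_le_mul_of_nonneg_right h2 hN0.le
    nlinarith
  have hfin := hK J k t ht0 hk1 (N ^ 4) hJ1
  refine hfin.trans ?_
  have hx0 : (0 : ℝ) ≤ (2 : ℝ) ^ (-(pe 0 * J / 2)) := Real.rpow_nonneg (by norm_num) _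
  have hK0 : 0 ≤ |K| := abs_nonneg K
  have hK1 : 0 < |K| + 1 := by linarith
  calc K * (2 : ℝ) ^ (-(pe 0 * J / 2)) * Real.sqrt ((J : ℝ) + k + 1)
      ≤ |K| * (2 / N) * (N / (2 * (|K| + 1))) := by
        refine mul_le_mul ?_ hs (Real.sqrt_nonneg _) (by positivity)
        exact mul_le_mul (le_abs_self K) hx hx0 hK0
    _ = |K| / (|K| + 1) := by
        field_simp
    _ ≤ 1 := by
        rw [div_le_one hK1]
        linarith

theorem T_LOW : P_LOW := by
  intro W S a σ κ b b'' hσ ha hUT H hκ hb hbb hfreq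
  obtain ⟨c, hc0, hc1, hcb⟩ : ∃ c : ℝ, 0 < c ∧ c < 1 ∧ b'' < c * b := by
    rcases lt_or_ge b'' 0 with h | h
    · have h1 : 0 ≤ 1 / 2 * b := by positivity
      exact ⟨1 / 2, by norm_num, by norm_num, by linarith⟩
    · have hb' : 0 < b := h.trans_lt hbb
      refine ⟨(b'' / b + 1) / 2, by positivity, ?_, ?_⟩
      · have h1 : b'' / b < 1 := (div_lt_one hb').2 hbb
        linarith
      · have h1 : (b'' / b + 1) / 2 * b = (b'' + b) / 2 := by
          field_simp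
        rw [h1]
        linarith
  obtain ⟨D, hD, N₀, hH⟩ := H c hc0 hc1
  obtain ⟨K, hK⟩ := hUT 0
  have hE := ev_main hκ hb hc0 hcb hD
  have hT := ev_tail (W := W) (S := S) hD hK
  rw [Filter.frequently_atTop]
  intro t₀
  obtain ⟨N, hN1, hN2, hN3, hN4, hN5⟩ := (hfreq.and_eventually (hE.and (hT.and
    ((eventually_ge_atTop N₀).and (eventually_ge_atTop (max 1 ⌈t₀⌉₊)))))).exists
  obtain ⟨t, ht1, ht2, ht3, ht4⟩ := hH N hN4
  have hNn : 1 ≤ N := (le_max_left _ _).trans hN5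
  have hNt : t₀ ≤ (N : ℝ) := (Nat.le_ceil t₀).trans (by exact_mod_cast (le_max_right _ _).trans hN5)
  have ht0 : 0 ≤ t := (Nat.cast_nonneg N).trans ht1
  refine ⟨t, hNt.trans ht1, ?_⟩
  have h1 := hN2 t ht1 ht2
  have h2 := hN3 t ht0 ht2
  have h3 : part W (N ^ 4) t = part W N t + ∑ n ∈ Ico N (N ^ 4), W n t := by
    have h4 : N ≤ N ^ 4 := Nat.le_self_pow (by norm_num) N
    unfold part
    exact (Finset.sum_range_add_sum_Ico _ h4).symm
  have habs : ∀ x : ℝ, |x| ≤ 1 → -1 ≤ σ * x := by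
    intro x hx
    have hx' := abs_le.1 hx
    rcases hσ with h | h
    · rw [h]
      linarith
    · rw [h]
      linarith
  have h4 := habs _ ht4
  have h5 := habs _ h2
  have h6 : σ * S t = σ * part W N t + σ * (∑ n ∈ Ico N (N ^ 4), W n t) +
      σ * (S t - part W (N ^ 4) t) := by
    rw [h3]
    ring
  have h7 : c * (b * Real.log N ^ κ) ≤ c * R a N := mul_le_mul_of_nonneg_left hN1 hc0.le
  rw [h6]
  linarith

end Pool.Agent.H404.RO
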